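import Pool.Agent.Work.MP_959bfa_lin.Interface3

/-!
Block SUMJ (wl_blocks, MP_959bfa_co): the sum over the size classes.
-/

namespace Wn

open Finset

theorem sumj_term (ε : ℝ) (j : ℕ) (hε : 0 < ε) :
    (2 : ℝ) ^ (5 * j) * Real.exp (-(ε ^ 2 * 2 ^ j / 64)) ≤
      720 * 64 ^ 6 * (1 / ε) ^ 12 * (1 / 2) ^ j := by
  have hx : (0 : ℝ) < 2 ^ j := by positivity
  have hxe : (2 : ℝ) ^ (5 * j) = (2 ^ j) ^ 5 := by rw [← pow_mul, mul_comm]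
  have hhalf : ((1 : ℝ) / 2) ^ j = 1 / 2 ^ j := by rw [div_pow, one_pow]
  rw [hxe, hhalf]
  generalize (2 : ℝ) ^ j = x at hx
  have hz : 0 < ε ^ 2 * x / 64 := by positivity
  have h6 : (ε ^ 2 * x / 64) ^ 6 / 720 ≤ Real.exp (ε ^ 2 * x / 64) := by
    have h := Real.pow_div_factorial_le_exp (ε ^ 2 * x / 64) hz.le 6
    have h720 : ((Nat.factorial 6 : ℕ) : ℝ) = 720 := by norm_num [Nat.factorial]
    rwa [h720] at h
  rw [Real.exp_neg]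
  have h7 : 0 < (ε ^ 2 * x / 64) ^ 6 / 720 := by positivity
  calc x ^ 5 * (Real.exp (ε ^ 2 * x / 64))⁻¹
      ≤ x ^ 5 * ((ε ^ 2 * x / 64) ^ 6 / 720)⁻¹ := by
        gcongr
    _ = 720 * 64 ^ 6 * (1 / ε) ^ 12 * (1 / x) := by
        field_simp
        try norm_num
        try ring

theorem SUMJ : stmt_SUMJ := by
  intro ε J hε _
  calc ∑ j ∈ range J, (2 : ℝ) ^ (5 * j) * Real.exp (-(ε ^ 2 * 2 ^ j / 64))
      ≤ ∑ j ∈ range J, 720 * 64 ^ 6 * (1 / ε) ^ 12 * (1 / 2) ^ j :=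
        sum_le_sum fun j _ => sumj_term ε j hε
    _ = 720 * 64 ^ 6 * (1 / ε) ^ 12 * ∑ j ∈ range J, ((1 : ℝ) / 2) ^ j := by rw [mul_sum]
    _ ≤ 720 * 64 ^ 6 * (1 / ε) ^ 12 * 2 := by
        gcongr
        exact sum_geometric_two_le J
    _ = 1440 * 64 ^ 6 * (1 / ε) ^ 12 := by ring

end Wn
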